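import Mathlib

/-!
# Injective Woronowicz morphisms out of `Z*`-algebras

Let `A` be a `Z*`-algebra, `B` a C*-algebra and `f : A → M(B)` an injective Woronowicz morphism.
Then `B` is a `Z*`-algebra.

Idea.  An element `h` of `B` is a limit of sums `∑ f(a) b`.  The countably many elements `a` which
occur have a common nonzero left annihilator `y` in `A`, and then `f(y) h = 0`.  Hence `B f(y) h = 0`
with `B f(y) ≠ 0`, and `h` is a zero divisor.
-/

set_option autoImplicit false

namespace Pool.Agent.Results.MP_e20a4f_an.WoronowiczMorphisms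

open scoped MultiplierAlgebra

/-- `a` is a (left or right) zero divisor. -/
def IsZeroDivisor {A : Type*} [NonUnitalCStarAlgebra A] (a : A) : Prop :=
  ∃ b : A, b ≠ 0 ∧ (a * b = 0 ∨ b * a = 0)

/-- `A` is a `Z*`-algebra: every positive element (that is, every element of the form `x* x`) is a
zero divisor. -/
def IsZStar (A : Type*) [NonUnitalCStarAlgebra A] : Prop :=
  ∀ x : A, IsZeroDivisor (star x * x)

/-- The *-homomorphism `f` from `A` to the multiplier algebra `M(B)` (double centralizers) is a
Woronowicz morphism from `A` to `B`: the linear span of the elements `f(a) b` is dense in `B`. -/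
def IsWoronowicz {A B : Type*} [NonUnitalCStarAlgebra A] [NonUnitalCStarAlgebra B]
    (f : A →⋆ₙₐ[ℂ] 𝓜(ℂ, B)) : Prop :=
  Dense ((Submodule.span ℂ {z : B | ∃ (a : A) (b : B), z = (f a).fst b} : Submodule ℂ B) : Set B)

/-- A countable family in a `Z*`-algebra has a common nonzero left annihilator. -/
theorem exists_annihilator {B : Type*} [NonUnitalCStarAlgebra B] (hB : IsZStar B) (z : ℕ → B) :
    ∃ y : B, y ≠ 0 ∧ ∀ n, y * z n = 0 := by
  let _ : PartialOrder B := CStarAlgebra.spectralOrder B
  have _ : StarOrderedRing B := CStarAlgebra.spectralOrderedRing B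
  -- the weights
  set w : ℕ → ℝ := fun n => (1 / 2) ^ n / (1 + ‖z n‖ ^ 2) with hw
  have hwpos : ∀ n, 0 < w n := fun n => by positivity
  set f : ℕ → B := fun n => (w n : ℝ) • (z n * star (z n)) with hf
  have hfn : ∀ n, ‖f n‖ ≤ (1 / 2) ^ n := by
    intro n
    rw [hf]
    simp only
    rw [norm_smul, CStarRing.norm_self_mul_star, Real.norm_of_nonneg (hwpos n).le, hw]
    simp only
    rw [div_mul_eq_mul_div, div_le_iff₀ (by positivity)]
    gcongr
    nlinarith [norm_nonneg (z n)]
  have hsum : Summable f :=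
    Summable.of_norm_bounded (summable_geometric_of_lt_one (by norm_num) (by norm_num)) hfn
  have hf0 : ∀ n, 0 ≤ f n := fun n => smul_nonneg (hwpos n).le (mul_star_self_nonneg (z n))
  have hh0 : 0 ≤ ∑' n, f n := tsum_nonneg hf0
  obtain ⟨x, hx⟩ := CStarAlgebra.nonneg_iff_eq_star_mul_self.1 hh0
  have hhs : IsSelfAdjoint (∑' n, f n) := .of_nonneg hh0
  obtain ⟨b, hb0, hb⟩ := hB x
  rw [← hx] at hb
  -- an element y with y h = 0
  obtain ⟨y, hy0, hy⟩ : ∃ y : B, y ≠ 0 ∧ y * (∑' n, f n) = 0 := by
    rcases hb with hb | hb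
    · refine ⟨star b, by simpa using hb0, ?_⟩
      have := congrArg star hb
      rwa [star_mul, hhs.star_eq, star_zero] at this
    · exact ⟨b, hb0, hb⟩
  refine ⟨y, hy0, fun n => ?_⟩
  have h1 : f n ≤ ∑' n, f n := hsum.le_tsum n (fun m _ => hf0 m)
  have h2 : y * f n * star y ≤ y * (∑' n, f n) * star y := star_right_conjugate_le_conjugate h1 y
  rw [hy, zero_mul] at h2
  have h3 : 0 ≤ y * f n * star y := star_right_conjugate_nonneg (hf0 n) y
  have h4 : y * f n * star y = 0 := le_antisymm h2 h3
  have h5 : y * f n * star y = w n • ((y * z n) * star (y * z n)) := by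
    rw [hf]
    simp only [star_mul, mul_smul_comm, smul_mul_assoc, mul_assoc]
  rw [h5] at h4
  have h6 : (y * z n) * star (y * z n) = 0 := by
    rcases smul_eq_zero.1 h4 with h | h
    · exact absurd h (hwpos n).ne'
    · exact h
  exact CStarRing.mul_star_self_eq_zero_iff _ |>.1 h6

/-- **Theorem.** If `A` is a `Z*`-algebra, `B` is a C*-algebra and `f` is an injective Woronowicz
morphism from `A` to `B`, then `B` is a `Z*`-algebra. -/
theorem result {A B : Type*} [NonUnitalCStarAlgebra A] [NonUnitalCStarAlgebra B]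
    (f : A →⋆ₙₐ[ℂ] 𝓜(ℂ, B)) (hf : IsWoronowicz f) (hi : Function.Injective f)
    (hA : IsZStar A) : IsZStar B := by
  intro x
  by_contra hnz
  set h : B := star x * x with hh
  have hl : ∀ b : B, b * h = 0 → b = 0 := by
    intro b hb
    by_contra hb0
    exact hnz ⟨b, hb0, Or.inr hb⟩
  -- h is a limit of sums of elements f(a) b
  have h1 := hf h
  rw [Metric.mem_closure_iff] at h1
  have h2 : ∀ n : ℕ, ∃ (k : ℕ) (a : Fin k → A) (b : Fin k → B),
      ‖h - ∑ l, (f (a l)).fst (b l)‖ < 1 / ((n : ℝ) + 1) := by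
    intro n
    obtain ⟨t, ht, hd⟩ := h1 (1 / ((n : ℝ) + 1)) (by positivity)
    have h3 : ∀ t ∈ Submodule.span ℂ {z : B | ∃ (a : A) (b : B), z = (f a).fst b},
        ∃ (k : ℕ) (a : Fin k → A) (b : Fin k → B), t = ∑ l, (f (a l)).fst (b l) := by
      intro t ht
      induction ht using Submodule.span_induction with
      | mem y hy =>
        obtain ⟨a, b, rfl⟩ := hy
        exact ⟨1, fun _ => a, fun _ => b, by simp⟩
      | zero => exact ⟨0, Fin.elim0, Fin.elim0, by simp⟩
      | add y z _ _ hy hz =>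
        obtain ⟨k, a, b, rfl⟩ := hy
        obtain ⟨k', a', b', rfl⟩ := hz
        refine ⟨k + k', Fin.append a a', Fin.append b b', ?_⟩
        rw [Fin.sum_univ_add]
        simp
      | smul c y _ hy =>
        obtain ⟨k, a, b, rfl⟩ := hy
        refine ⟨k, a, fun l => c • b l, ?_⟩
        rw [Finset.smul_sum]
        simp
    obtain ⟨k, a, b, rfl⟩ := h3 t ht
    refine ⟨k, a, b, ?_⟩
    rwa [dist_eq_norm] at hd
  choose k a b hab using h2
  -- a common annihilator
  have hcount : Countable (Option (Σ p : ℕ, Fin (k p))) := inferInstance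
  obtain ⟨g, hg⟩ := exists_surjective_nat (Option (Σ p : ℕ, Fin (k p)))
  obtain ⟨y, hy0, hy⟩ := exists_annihilator hA
    (fun n => Option.elim (g n) 0 (fun pl : (Σ p : ℕ, Fin (k p)) => a pl.1 pl.2))
  have hya : ∀ p l, y * a p l = 0 := by
    intro p l
    obtain ⟨n, hn⟩ := hg (some ⟨p, l⟩)
    have := hy n
    rwa [hn] at this
  -- f(y) h = 0
  have h4 : ∀ p : ℕ, ‖(f y).fst h‖ ≤ ‖(f y).fst‖ * (1 / ((p : ℝ) + 1)) := by
    intro p
    have h5 : (f y).fst h = (f y).fst (h - ∑ l, (f (a p l)).fst (b p l)) := by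
      rw [map_sub, map_sum]
      have : ∑ l, (f y).fst ((f (a p l)).fst (b p l)) = 0 := by
        refine Finset.sum_eq_zero fun l _ => ?_
        have h6 : (f y * f (a p l)).fst (b p l) = 0 := by
          rw [← map_mul, hya, map_zero]
          simp
        rwa [DoubleCentralizer.mul_fst] at h6
      rw [this, sub_zero]
    rw [h5]
    exact ((f y).fst.le_opNorm _).trans (by gcongr; exact (hab p).le)
  have h5 : (f y).fst h = 0 := by
    rw [← norm_le_zero_iff]
    have hlim : Filter.Tendsto (fun p : ℕ => ‖(f y).fst‖ * (1 / ((p : ℝ) + 1))) Filter.atTop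
        (nhds (‖(f y).fst‖ * 0)) :=
      (tendsto_one_div_add_atTop_nhds_zero_nat).const_mul _
    rw [mul_zero] at hlim
    exact ge_of_tendsto' hlim h4
  -- B f(y) = 0
  have h6 : ∀ z : B, (f y).snd z = 0 := by
    intro z
    apply hl
    rw [(f y).central, h5, mul_zero]
  have h7 : ∀ w : B, (f y).fst w = 0 := by
    intro w
    have h8 : star ((f y).fst w) * (f y).fst w = 0 := by
      rw [← (f y).central, h6, zero_mul]
    exact (CStarRing.star_mul_self_eq_zero_iff _).1 h8
  have h8 : f y = 0 := by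
    apply DoubleCentralizer.ext
    refine Prod.ext ?_ ?_
    · ext w
      simpa using h7 w
    · ext w
      simpa using h6 w
  exact hy0 (hi (by rw [h8, map_zero]))

end Pool.Agent.Results.MP_e20a4f_an.WoronowiczMorphisms
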